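import Pool.Agent.KS6_69.AP.Add

/-!
# All norm-minimal decompositions and extensions of measurable characteristic functions are measurable

The definitions are in `Pool.Agent.KS6_69.AP.APDefs`; there `D` is any set of real numbers in the
place of the interval `(-A, A)`, which is `dom A`.
-/

set_option autoImplicit false

namespace Pool.Agent.Results.MP_b1ee0a_an.AutomaticMeasurability

open MeasureTheory Set Pool.Agent.KS6_69.AP

/-- Let `D` be an open set of real numbers and `f ∈ R_D` measurable.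
(1) Let `f = ∑ g_i` on `D` (any index set) with `g_i ∈ R_{E_i}`, `E_i ⊇ D` measurable, and
`∑ ‖g_i‖_{E_i} ≤ ‖f‖_D`. Then every `g_i` is measurable on `E_i`.
(2) `f` has an extension to the line with the same norm, and every extension of `f` to a measurable
set `D' ⊇ D` with the same norm is measurable.
(3) Let `D` be symmetric with `0 ∈ D` and `f` Hermitian. There are functions `f₊`, `f₋` in `P_ℝ` with
`f = f₊ - f₋` on `D` and `f₊(0) + f₋(0) = ‖f‖_D`; and if `f₊ ∈ P_{D₁}`, `f₋ ∈ P_{D₂}` are any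
functions with these two properties, `D₁, D₂ ⊇ D` symmetric and measurable, then `f₊` is measurable
on `D₁` and `f₋` on `D₂`.
(4) Q1, `D = (-A, A)`: decompositions with `f₊, f₋ ∈ P_A` and `‖f‖_A = f₊(0) + f₋(0)` exist and in all
of them `f₊` and `f₋` are measurable. -/
theorem result :
    (∀ (D : Set ℝ) (f : ℝ → ℂ), IsOpen D → InR D f → Meas D f →
      (∀ (ι : Type) (E : ι → Set ℝ) (g : ι → ℝ → ℂ) (N : ℝ),
        (∀ i, MeasurableSet (E i) ∧ D ⊆ E i ∧ InR (E i) (g i)) →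
        (∀ x ∈ D, HasSum (fun i => g i x) (f x)) → HasSum (fun i => nrm (E i) (g i)) N →
        N ≤ nrm D f → ∀ i, Meas (E i) (g i)) ∧
      ((∃ F, InR univ F ∧ nrm univ F = nrm D f ∧ ∀ x ∈ D, F x = f x) ∧
        ∀ (D' : Set ℝ) (F : ℝ → ℂ), MeasurableSet D' → D ⊆ D' → InR D' F → nrm D' F ≤ nrm D f →
          (∀ x ∈ D, F x = f x) → Meas D' F) ∧
      (0 ∈ D → (∀ x ∈ D, -x ∈ D) → Herm D f →
        (∃ fp fm : ℝ → ℂ, InP univ fp ∧ InP univ fm ∧ (∀ x ∈ D, f x = fp x - fm x) ∧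
          fp 0 + fm 0 = (nrm D f : ℂ)) ∧
        ∀ (D₁ D₂ : Set ℝ) (fp fm : ℝ → ℂ), MeasurableSet D₁ → MeasurableSet D₂ → D ⊆ D₁ →
          D ⊆ D₂ → (∀ x ∈ D₁, -x ∈ D₁) → (∀ x ∈ D₂, -x ∈ D₂) → InP D₁ fp → InP D₂ fm →
          (∀ x ∈ D, f x = fp x - fm x) → fp 0 + fm 0 = (nrm D f : ℂ) →
          Meas D₁ fp ∧ Meas D₂ fm)) ∧
    (∀ A : EReal, 0 < A → ∀ f : ℝ → ℂ, InR (dom A) f → Meas (dom A) f → Herm (dom A) f →
      (∃ fp fm : ℝ → ℂ, InP (dom A) fp ∧ InP (dom A) fm ∧ Meas (dom A) fp ∧ Meas (dom A) fm ∧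
        (∀ x ∈ dom A, f x = fp x - fm x) ∧ fp 0 + fm 0 = (nrm (dom A) f : ℂ)) ∧
      ∀ fp fm : ℝ → ℂ, InP (dom A) fp → InP (dom A) fm → (∀ x ∈ dom A, f x = fp x - fm x) →
        fp 0 + fm 0 = (nrm (dom A) f : ℂ) → Meas (dom A) fp ∧ Meas (dom A) fm) := by
  refine ⟨fun D f hD hR hf => ⟨fun ι E g N h1 h2 h3 h4 i => ?_, ⟨extend_univ hR,
    fun D' F hD' hs hF hn h => ext_meas' hD hD' hs hR hf hF hn h⟩, fun h0 hs hH => ⟨?_,
    fun D₁ D₂ fp fm a1 a2 a3 a4 a5 a6 a7 a8 a9 a10 =>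
      jordan_meas hD h0 a1 a2 a3 a4 a5 a6 hR hf a7 a8 a9 a10⟩⟩, fun A hA f hR hf hH => ?_⟩
  · exact add_meas hD hR hf E (fun i => (h1 i).1) (fun i => (h1 i).2.1) g (fun i => (h1 i).2.2)
      h2 N h3 h4 i
  · obtain ⟨fp, fm, h1, h2, h3, h4⟩ := decomp_univ h0 hs hR hH
    exact ⟨fp, fm, h1, h2, h3, h4.symm⟩
  · have key : ∀ fp fm : ℝ → ℂ, InP (dom A) fp → InP (dom A) fm →
        (∀ x ∈ dom A, f x = fp x - fm x) → fp 0 + fm 0 = (nrm (dom A) f : ℂ) →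
        Meas (dom A) fp ∧ Meas (dom A) fm := fun fp fm h1 h2 h3 h4 =>
      jordan_meas (dom_open A) (dom_zero hA) (dom_open A).measurableSet (dom_open A).measurableSet
        subset_rfl subset_rfl (dom_neg A) (dom_neg A) hR hf h1 h2 h3 h4
    obtain ⟨fp, fm, h1, h2, h3, h4⟩ := decomp_univ (dom_zero hA) (dom_neg A) hR hH
    have hk := key fp fm (inP_mono h1) (inP_mono h2) h3 h4.symm
    exact ⟨⟨fp, fm, inP_mono h1, inP_mono h2, hk.1, hk.2, h3, h4.symm⟩, key⟩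

end Pool.Agent.Results.MP_b1ee0a_an.AutomaticMeasurability
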